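import Mathlib

/-!
# FAT chromatic number with a prescribed fairness parameter

For every `k ≥ 2` and every rational `0 < α ≤ 1 / (k - 1)` there is a connected graph with FAT
chromatic number `k` which has a FAT `k`-coloring with parameter `α`.

For `α = 1 / (k - 1)` one takes `K_k`.  Otherwise write `α = a / b` in lowest terms and
`c = b - (k - 1) a ≥ 1`, and choose `u, w` with `u a = c w + 1` and `w > c`; let `y = w - c`. The
graph has, for all `i < k`, `s < u`, `t < y`, a clique `B(i,s,t)` with `a (c + 1)` vertices and `a`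
cliques `A(i,s,t,m)` with `c ^ 2 + c + 1` vertices. `B(i,s,t)` and `B(i,s',t)` are completely joined,
and so are `B(i,s,t)` and `B(j,s,t')` for `i ≠ j`, and `A(i,s,t,m)` and `B(j,s,t)` for `i ≠ j`.
The vertices of `A(i,s,t,m)` have degree `(c + 1) b`, those of `B(i,s,t)` have degree
`((c + 1) w + 1) b`, and `i` is a FAT coloring with parameter `a / b`.  Two vertices of the same
clique have the same closed neighbourhood, and it follows (by divisibility) that they have the same
colour in each FAT coloring of this graph. Hence each vertex of `A(i,s,t,m)` sees at most `k`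
colours.
-/

open Finset

namespace Pool.Agent.Results.MP_2d49c6_co.AllParameters

open scoped Classical in
/-- `e(v, V_i)`: the number of neighbours `w` of `v` with `c w = i` -/
noncomputable def e {V : Type} [Fintype V] (G : SimpleGraph V) {k : ℕ} (c : V → Fin k) (v : V)
    (i : Fin k) : ℕ :=
  (univ.filter (fun w => G.Adj v w ∧ c w = i)).card

open scoped Classical in
/-- the degree of `v` -/
noncomputable def deg {V : Type} [Fintype V] (G : SimpleGraph V) (v : V) : ℕ :=
  (univ.filter (fun w => G.Adj v w)).card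

/-- `c` is a FAT `k`-coloring of `G` with parameter `α` -/
def IsFAT {V : Type} [Fintype V] (G : SimpleGraph V) (k : ℕ) (c : V → Fin k) (α : ℝ) : Prop :=
  Function.Surjective c ∧ 0 ≤ α ∧ α ≤ 1 ∧
    (∀ v i, c v ≠ i → (e G c v i : ℝ) = α * deg G v) ∧
    (∀ v i, c v = i → (e G c v i : ℝ) = (1 - (k - 1) * α) * deg G v)

/-- `G` admits a FAT `k`-coloring -/
def HasFAT {V : Type} [Fintype V] (G : SimpleGraph V) (k : ℕ) : Prop :=
  ∃ (c : V → Fin k) (α : ℝ), IsFAT G k c α

/-- The FAT chromatic number: the largest `k` such that `G` has a FAT `k`-coloring. -/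
noncomputable def chiFAT {V : Type} [Fintype V] (G : SimpleGraph V) : ℕ := sSup {k | HasFAT G k}

section general

variable {V : Type} [Fintype V] {G : SimpleGraph V}

theorem deg_eq_sum {k : ℕ} (c : V → Fin k) (v : V) : deg G v = ∑ i, e G c v i := by
  classical
  unfold deg e
  rw [Finset.card_eq_sum_card_fiberwise (f := c) (t := univ) (fun _ _ => mem_univ _)]
  refine Finset.sum_congr rfl fun i _ => ?_
  rw [Finset.filter_filter]

theorem hasFAT_le_card {k : ℕ} (h : HasFAT G k) : k ≤ Fintype.card V := by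
  obtain ⟨c, α, hc, _⟩ := h
  simpa using Fintype.card_le_of_surjective c hc

theorem chi_eq {k : ℕ} (h : HasFAT G k) (h' : ∀ l, HasFAT G l → l ≤ k) : chiFAT G = k := by
  apply le_antisymm
  · exact csSup_le ⟨k, h⟩ h'
  · exact le_csSup ⟨k, fun l hl => h' l hl⟩ h

/-- The parameter is positive if there are at least two colours. -/
theorem param_pos {k : ℕ} {c : V → Fin k} {α : ℝ} (hG : G.Connected) (h : IsFAT G k c α)
    (hk : 2 ≤ k) : 0 < α := by
  classical
  obtain ⟨hs, h0, _, h1, _⟩ := h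
  rcases h0.lt_or_eq with h0 | h0
  · exact h0
  exfalso
  subst h0
  have hadj : ∀ v w, G.Adj v w → c v = c w := by
    intro v w hvw
    by_contra hne
    have := h1 v (c w) hne
    rw [zero_mul] at this
    have h2 : e G c v (c w) = 0 := by exact_mod_cast this
    unfold e at h2
    rw [Finset.card_eq_zero] at h2
    have : w ∈ univ.filter (fun x => G.Adj v x ∧ c x = c w) := by simp [hvw]
    rw [h2] at this
    exact absurd this (Finset.notMem_empty _)
  have hall : ∀ v w, c v = c w := by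
    intro v w
    obtain ⟨p⟩ := hG.preconnected v w
    induction p with
    | nil => rfl
    | cons h _ ih => exact (hadj _ _ h).trans ih
  obtain ⟨v, hv⟩ := hs ⟨0, by omega⟩
  obtain ⟨w, hw⟩ := hs ⟨1, by omega⟩
  have := hall v w
  rw [hv, hw] at this
  simp at this

/-- If two adjacent vertices with the same closed neighbourhood have different colours then
`k α d = d + 1`, where `d` is their degree. -/
theorem twins {k : ℕ} {c : V → Fin k} {α : ℝ} (h : IsFAT G k c α) (p q : V) (hpq : G.Adj p q)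
    (htw : ∀ w, w ≠ p → w ≠ q → (G.Adj p w ↔ G.Adj q w)) (hc : c p ≠ c q) :
    k * α * deg G p = deg G p + 1 := by
  classical
  obtain ⟨_, _, _, h1, h2⟩ := h
  have hdeg : deg G q = deg G p := by
    unfold deg
    apply Finset.card_bij' (i := fun w _ => if w = p then q else w)
      (j := fun w _ => if w = q then p else w)
    · intro w hw
      simp only [mem_filter, mem_univ, true_and] at hw ⊢
      by_cases hwp : w = p
      · simp [hwp, hpq]
      · have hwq : w ≠ q := hw.ne'
        simp only [hwp, if_false]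
        exact (htw w hwp hwq).2 hw
    · intro w hw
      simp only [mem_filter, mem_univ, true_and] at hw ⊢
      by_cases hwq : w = q
      · simp [hwq, hpq.symm]
      · have hwp : w ≠ p := hw.ne'
        simp only [hwq, if_false]
        exact (htw w hwp hwq).1 hw
    · intro w hw
      simp only [mem_filter, mem_univ, true_and] at hw
      by_cases hwp : w = p
      · simp [hwp]
      · simp [hwp, hw.ne']
    · intro w hw
      simp only [mem_filter, mem_univ, true_and] at hw
      by_cases hwq : w = q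
      · simp [hwq]
      · simp [hwq, hw.ne']
  have he : e G c q (c p) = e G c p (c p) + 1 := by
    unfold e
    have : univ.filter (fun w => G.Adj q w ∧ c w = c p) =
        insert p (univ.filter (fun w => G.Adj p w ∧ c w = c p)) := by
      ext w
      simp only [mem_filter, mem_univ, true_and, mem_insert]
      constructor
      · rintro ⟨ha, hcw⟩
        by_cases hwp : w = p
        · exact Or.inl hwp
        · exact Or.inr ⟨(htw w hwp ha.ne').2 ha, hcw⟩
      · rintro (rfl | ⟨ha, hcw⟩)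
        · exact ⟨hpq.symm, rfl⟩
        · refine ⟨(htw w ha.ne' ?_).1 ha, hcw⟩
          rintro rfl
          exact hc hcw.symm
    rw [this, Finset.card_insert_of_notMem]
    simp
  have e1 := h1 q (c p) hc.symm
  have e2 := h2 p (c p) rfl
  rw [he, hdeg] at e1
  push_cast at e1
  rw [e2] at e1
  linarith

end general

section construction

/-- the vertices: `((i, s, t), inl z)` is the `z`-th vertex of `B(i,s,t)` and
`((i, s, t), inr (m, z))` is the `z`-th vertex of `A(i,s,t,m)` -/
abbrev W (k u y p a q : ℕ) : Type := (Fin k × Fin u × Fin y) × (Fin p ⊕ (Fin a × Fin q))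

variable {k u y p a q : ℕ}

/-- adjacency -/
def adj : W k u y p a q → W k u y p a q → Prop
  | ((i, s, t), Sum.inl z), ((j, s', t'), Sum.inl z') =>
      (i = j ∧ t = t' ∧ (s, z) ≠ (s', z')) ∨ (i ≠ j ∧ s = s')
  | ((i, s, t), Sum.inl _), ((j, s', t'), Sum.inr _) => i ≠ j ∧ s = s' ∧ t = t'
  | ((i, s, t), Sum.inr _), ((j, s', t'), Sum.inl _) => i ≠ j ∧ s = s' ∧ t = t'
  | ((i, s, t), Sum.inr (m, z)), ((j, s', t'), Sum.inr (m', z')) =>
      i = j ∧ s = s' ∧ t = t' ∧ m = m' ∧ z ≠ z'

/-- the graph -/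
def gr (k u y p a q : ℕ) : SimpleGraph (W k u y p a q) where
  Adj := adj
  symm := ⟨by
    rintro ⟨⟨i, s, t⟩, z | ⟨m, z⟩⟩ ⟨⟨j, s', t'⟩, z' | ⟨m', z'⟩⟩ h
    · simp only [adj] at h ⊢
      rcases h with ⟨h1, h2, h3⟩ | ⟨h1, h2⟩
      · exact Or.inl ⟨h1.symm, h2.symm, h3.symm⟩
      · exact Or.inr ⟨Ne.symm h1, h2.symm⟩
    · simp only [adj] at h ⊢
      exact ⟨Ne.symm h.1, h.2.1.symm, h.2.2.symm⟩
    · simp only [adj] at h ⊢
      exact ⟨Ne.symm h.1, h.2.1.symm, h.2.2.symm⟩
    · simp only [adj] at h ⊢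
      exact ⟨h.1.symm, h.2.1.symm, h.2.2.1.symm, h.2.2.2.1.symm, Ne.symm h.2.2.2.2⟩⟩
  loopless := ⟨by
    rintro ⟨⟨i, s, t⟩, z | ⟨m, z⟩⟩ h
    · simp [adj] at h
    · simp [adj] at h⟩

/-- the colour -/
def col (v : W k u y p a q) : Fin k := v.1.1

theorem e_A_same (i : Fin k) (s : Fin u) (t : Fin y) (m : Fin a) (z : Fin q) :
    e (gr k u y p a q) col ((i, s, t), Sum.inr (m, z)) i = q - 1 := by
  classical
  unfold e
  have : univ.filter (fun w => (gr k u y p a q).Adj ((i, s, t), Sum.inr (m, z)) w ∧ col w = i) =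
      ((univ : Finset (Fin q)).erase z).image (fun z' => ((i, s, t), Sum.inr (m, z'))) := by
    ext ⟨⟨j, s', t'⟩, z' | ⟨m', z'⟩⟩
    · simp only [gr, adj, col, mem_filter, mem_univ, true_and, mem_image, mem_erase]
      constructor
      · rintro ⟨⟨h, _⟩, h'⟩
        exact absurd h'.symm h
      · rintro ⟨x, _, hx⟩
        simp at hx
    · simp only [gr, adj, col, mem_filter, mem_univ, true_and, mem_image, mem_erase, and_true]
      constructor
      · rintro ⟨⟨rfl, rfl, rfl, rfl, h⟩, _⟩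
        exact ⟨z', h.symm, rfl⟩
      · rintro ⟨x, hx, hx'⟩
        simp only [Prod.mk.injEq, Sum.inr.injEq] at hx'
        obtain ⟨⟨rfl, rfl, rfl⟩, rfl, rfl⟩ := hx'
        exact ⟨⟨rfl, rfl, rfl, rfl, hx.symm⟩, rfl⟩
  rw [this, Finset.card_image_of_injective, Finset.card_erase_of_mem (mem_univ z)]
  · simp
  · intro x x' h
    simpa using h

theorem e_A_diff (i : Fin k) (s : Fin u) (t : Fin y) (m : Fin a) (z : Fin q) (j : Fin k)
    (hij : i ≠ j) : e (gr k u y p a q) col ((i, s, t), Sum.inr (m, z)) j = p := by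
  classical
  unfold e
  have : univ.filter (fun w => (gr k u y p a q).Adj ((i, s, t), Sum.inr (m, z)) w ∧ col w = j) =
      (univ : Finset (Fin p)).image (fun z' => ((j, s, t), Sum.inl z')) := by
    ext ⟨⟨j', s', t'⟩, z' | ⟨m', z'⟩⟩
    · simp only [gr, adj, col, mem_filter, mem_univ, true_and, mem_image]
      constructor
      · rintro ⟨⟨h, rfl, rfl⟩, rfl⟩
        exact ⟨z', rfl⟩
      · rintro ⟨x, hx⟩
        simp only [Prod.mk.injEq, Sum.inl.injEq] at hx
        obtain ⟨⟨rfl, rfl, rfl⟩, rfl⟩ := hx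
        exact ⟨⟨hij, rfl, rfl⟩, rfl⟩
    · simp only [gr, adj, col, mem_filter, mem_univ, true_and, mem_image]
      constructor
      · rintro ⟨⟨h, _⟩, h'⟩
        exact absurd (h.trans h') hij
      · rintro ⟨x, hx⟩
        simp at hx
  rw [this, Finset.card_image_of_injective]
  · simp
  · intro x x' h
    simpa using h

theorem e_B_same (i : Fin k) (s : Fin u) (t : Fin y) (z : Fin p) :
    e (gr k u y p a q) col ((i, s, t), Sum.inl z) i = u * p - 1 := by
  classical
  unfold e
  have : univ.filter (fun w => (gr k u y p a q).Adj ((i, s, t), Sum.inl z) w ∧ col w = i) =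
      ((univ : Finset (Fin u × Fin p)).erase (s, z)).image
        (fun z' => ((i, z'.1, t), Sum.inl z'.2)) := by
    ext ⟨⟨j, s', t'⟩, z' | ⟨m', z'⟩⟩
    · simp only [gr, adj, col, mem_filter, mem_univ, true_and, mem_image, mem_erase, and_true]
      constructor
      · rintro ⟨⟨rfl, rfl, h⟩ | ⟨h, _⟩, h'⟩
        · exact ⟨(s', z'), h.symm, rfl⟩
        · exact absurd h'.symm h
      · rintro ⟨⟨x1, x2⟩, hx, hx'⟩
        simp only [Prod.mk.injEq, Sum.inl.injEq] at hx'
        obtain ⟨⟨rfl, rfl, rfl⟩, rfl⟩ := hx'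
        exact ⟨Or.inl ⟨rfl, rfl, hx.symm⟩, rfl⟩
    · simp only [gr, adj, col, mem_filter, mem_univ, true_and, mem_image, mem_erase, and_true]
      constructor
      · rintro ⟨⟨h, _⟩, h'⟩
        exact absurd h'.symm h
      · rintro ⟨x, hx, hx'⟩
        simp at hx'
  rw [this, Finset.card_image_of_injective, Finset.card_erase_of_mem (mem_univ _)]
  · simp
  · intro x x' h
    simp only [Prod.mk.injEq, Sum.inl.injEq, true_and, and_true] at h
    exact Prod.ext h.1 h.2

theorem e_B_diff (i : Fin k) (s : Fin u) (t : Fin y) (z : Fin p) (j : Fin k)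
    (hij : i ≠ j) : e (gr k u y p a q) col ((i, s, t), Sum.inl z) j = y * p + a * q := by
  classical
  unfold e
  have : univ.filter (fun w => (gr k u y p a q).Adj ((i, s, t), Sum.inl z) w ∧ col w = j) =
      (univ : Finset ((Fin y × Fin p) ⊕ (Fin a × Fin q))).image
        (fun x => match x with
          | Sum.inl (t', z') => ((j, s, t'), Sum.inl z')
          | Sum.inr (m, z') => ((j, s, t), Sum.inr (m, z'))) := by
    ext ⟨⟨j', s', t'⟩, z' | ⟨m', z'⟩⟩
    · simp only [gr, adj, col, mem_filter, mem_univ, true_and, mem_image]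
      constructor
      · rintro ⟨⟨h1, h2, h⟩ | ⟨h, rfl⟩, h'⟩
        · exact absurd (h1.trans h') hij
        · subst h'
          exact ⟨Sum.inl (t', z'), rfl⟩
      · rintro ⟨⟨x1, x2⟩ | ⟨x1, x2⟩, hx⟩
        · simp only [Prod.mk.injEq, Sum.inl.injEq] at hx
          obtain ⟨⟨rfl, rfl, rfl⟩, rfl⟩ := hx
          exact ⟨Or.inr ⟨hij, rfl⟩, rfl⟩
        · simp at hx
    · simp only [gr, adj, col, mem_filter, mem_univ, true_and, mem_image]
      constructor
      · rintro ⟨⟨h, rfl, rfl⟩, rfl⟩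
        exact ⟨Sum.inr (m', z'), rfl⟩
      · rintro ⟨⟨x1, x2⟩ | ⟨x1, x2⟩, hx⟩
        · simp at hx
        · simp only [Prod.mk.injEq, Sum.inr.injEq] at hx
          obtain ⟨⟨rfl, rfl, rfl⟩, rfl, rfl⟩ := hx
          exact ⟨⟨hij, rfl, rfl⟩, rfl⟩
  rw [this, Finset.card_image_of_injective]
  · simp
  · rintro (⟨x1, x2⟩ | ⟨x1, x2⟩) (⟨x1', x2'⟩ | ⟨x1', x2'⟩) h
    · simp only [Prod.mk.injEq, Sum.inl.injEq, true_and] at h
      rw [h.1, h.2]
    · simp at h
    · simp at h
    · simp only [Prod.mk.injEq, Sum.inr.injEq, true_and] at h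
      rw [h.1, h.2]

theorem deg_A (i : Fin k) (s : Fin u) (t : Fin y) (m : Fin a) (z : Fin q) :
    deg (gr k u y p a q) ((i, s, t), Sum.inr (m, z)) = (k - 1) * p + (q - 1) := by
  classical
  rw [deg_eq_sum col, ← Finset.add_sum_erase _ _ (mem_univ i), e_A_same, add_comm]
  congr 1
  rw [Finset.sum_congr rfl (g := fun _ => p)
    (fun j hj => e_A_diff i s t m z j (Finset.ne_of_mem_erase hj).symm)]
  simp

theorem deg_B (i : Fin k) (s : Fin u) (t : Fin y) (z : Fin p) :
    deg (gr k u y p a q) ((i, s, t), Sum.inl z) = (k - 1) * (y * p + a * q) + (u * p - 1) := by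
  classical
  rw [deg_eq_sum col, ← Finset.add_sum_erase _ _ (mem_univ i), e_B_same, add_comm]
  congr 1
  rw [Finset.sum_congr rfl (g := fun _ => y * p + a * q)
    (fun j hj => e_B_diff i s t z j (Finset.ne_of_mem_erase hj).symm)]
  simp

theorem connected (hk : 2 ≤ k) (i₀ : Fin k) (s₀ : Fin u) (t₀ : Fin y) (z₀ : Fin p) :
    (gr k u y p a q).Connected := by
  have hB : ∀ (i : Fin k) (s : Fin u) (t : Fin y) (z : Fin p), i ≠ i₀ →
      (gr k u y p a q).Reachable ((i, s, t), Sum.inl z) ((i₀, s₀, t₀), Sum.inl z₀) := by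
    intro i s t z hi
    have h1 : (gr k u y p a q).Adj ((i, s, t), Sum.inl z) ((i₀, s, t₀), Sum.inl z₀) :=
      Or.inr ⟨hi, rfl⟩
    by_cases hs : s = s₀
    · subst hs
      exact h1.reachable
    · have h2 : (gr k u y p a q).Adj ((i₀, s, t₀), Sum.inl z₀) ((i₀, s₀, t₀), Sum.inl z₀) :=
        Or.inl ⟨rfl, rfl, fun h => hs (Prod.ext_iff.1 h).1⟩
      exact h1.reachable.trans h2.reachable
  have hne : ∀ i : Fin k, ∃ j : Fin k, j ≠ i := by
    intro i
    by_cases hi : i.1 = 0
    · exact ⟨⟨1, by omega⟩, fun h => by rw [← h] at hi; simp at hi⟩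
    · exact ⟨⟨0, by omega⟩, fun h => by rw [← h] at hi; simp at hi⟩
  have hB' : ∀ (i : Fin k) (s : Fin u) (t : Fin y) (z : Fin p),
      (gr k u y p a q).Reachable ((i, s, t), Sum.inl z) ((i₀, s₀, t₀), Sum.inl z₀) := by
    intro i s t z
    by_cases hi : i = i₀
    · obtain ⟨j, hj⟩ := hne i
      have h1 : (gr k u y p a q).Adj ((i, s, t), Sum.inl z) ((j, s, t), Sum.inl z) :=
        Or.inr ⟨hj.symm, rfl⟩
      exact h1.reachable.trans (hB j s t z (fun h => hj (h.trans hi.symm)))
    · exact hB i s t z hi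
  have hall : ∀ v : W k u y p a q, (gr k u y p a q).Reachable v ((i₀, s₀, t₀), Sum.inl z₀) := by
    rintro ⟨⟨i, s, t⟩, z | ⟨m, z⟩⟩
    · exact hB' i s t z
    · obtain ⟨j, hj⟩ := hne i
      have h1 : (gr k u y p a q).Adj ((i, s, t), Sum.inr (m, z)) ((j, s, t), Sum.inl z₀) :=
        ⟨hj.symm, rfl, rfl⟩
      exact h1.reachable.trans (hB' j s t z₀)
  have : Nonempty (W k u y p a q) := ⟨((i₀, s₀, t₀), Sum.inl z₀)⟩
  exact ⟨fun v w => (hall v).trans (hall w).symm⟩

theorem dvd_of {l δ δ' m : ℕ} {α : ℝ} (h : l * α * δ = δ + 1) (h' : (m : ℝ) = α * δ') :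
    δ ∣ δ' := by
  have h1 : ((l * m * δ : ℕ) : ℝ) = (((δ + 1) * δ' : ℕ) : ℝ) := by
    push_cast
    rw [h', ← h]
    ring
  have h2 : l * m * δ = (δ + 1) * δ' := by exact_mod_cast h1
  have h3 : δ ∣ (δ + 1) * δ' := ⟨l * m, by rw [← h2]; ring⟩
  exact (Nat.Coprime.dvd_mul_left (by simp)).1 h3

theorem upper (hk : 2 ≤ k) (i₀ : Fin k) (s₀ : Fin u) (t₀ : Fin y) (z₀ : Fin p) (m₀ : Fin a)
    (x₀ : Fin q) (h12 : ¬ ((k - 1) * p + (q - 1)) ∣ ((k - 1) * (y * p + a * q) + (u * p - 1)))
    (h21 : ¬ ((k - 1) * (y * p + a * q) + (u * p - 1)) ∣ ((k - 1) * p + (q - 1)))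
    (l : ℕ) (h : HasFAT (gr k u y p a q) l) : l ≤ k := by
  classical
  by_contra hlk
  push Not at hlk
  obtain ⟨c, α, hc⟩ := h
  have hα := param_pos (connected hk i₀ s₀ t₀ z₀) hc (by omega)
  have hne : ∀ i : Fin l, ∃ j : Fin l, i ≠ j := by
    intro i
    by_cases hi : i.1 = 0
    · exact ⟨⟨1, by omega⟩, fun h => by rw [h] at hi; simp at hi⟩
    · exact ⟨⟨0, by omega⟩, fun h => by rw [h] at hi; simp at hi⟩
  have hint : ∀ v, ∃ m : ℕ, (m : ℝ) = α * deg (gr k u y p a q) v := by
    intro v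
    obtain ⟨j, hj⟩ := hne (c v)
    exact ⟨_, hc.2.2.2.1 v j hj⟩
  -- the cliques are monochromatic
  have hA : ∀ i s t m z z', c ((i, s, t), Sum.inr (m, z)) = c ((i, s, t), Sum.inr (m, z')) := by
    intro i s t m z z'
    by_contra hcon
    have hz : z ≠ z' := by rintro rfl; exact hcon rfl
    have h1 := twins hc ((i, s, t), Sum.inr (m, z)) ((i, s, t), Sum.inr (m, z'))
      ⟨rfl, rfl, rfl, rfl, hz⟩ (by
        rintro ⟨⟨j, s', t'⟩, x | ⟨m', x⟩⟩ h1 h2
        · exact Iff.rfl
        · constructor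
          · rintro ⟨rfl, rfl, rfl, rfl, h⟩
            exact ⟨rfl, rfl, rfl, rfl, fun h' => h2 (by rw [h'])⟩
          · rintro ⟨rfl, rfl, rfl, rfl, h⟩
            exact ⟨rfl, rfl, rfl, rfl, fun h' => h1 (by rw [h'])⟩) hcon
    obtain ⟨n, hn⟩ := hint ((i₀, s₀, t₀), Sum.inl z₀)
    rw [deg_A] at h1
    rw [deg_B] at hn
    exact h12 (dvd_of h1 hn)
  have hB : ∀ i s t z z', c ((i, s, t), Sum.inl z) = c ((i, s, t), Sum.inl z') := by
    intro i s t z z'
    by_contra hcon
    have hz : z ≠ z' := by rintro rfl; exact hcon rfl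
    have h1 := twins hc ((i, s, t), Sum.inl z) ((i, s, t), Sum.inl z')
      (Or.inl ⟨rfl, rfl, fun h => hz (Prod.ext_iff.1 h).2⟩) (by
        rintro ⟨⟨j, s', t'⟩, x | ⟨m', x⟩⟩ h1 h2
        · constructor
          · rintro (⟨rfl, rfl, h⟩ | ⟨h, rfl⟩)
            · refine Or.inl ⟨rfl, rfl, fun h' => h2 ?_⟩
              rw [Prod.mk.injEq] at h'
              rw [h'.1, h'.2]
            · exact Or.inr ⟨h, rfl⟩
          · rintro (⟨rfl, rfl, h⟩ | ⟨h, rfl⟩)
            · refine Or.inl ⟨rfl, rfl, fun h' => h1 ?_⟩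
              rw [Prod.mk.injEq] at h'
              rw [h'.1, h'.2]
            · exact Or.inr ⟨h, rfl⟩
        · exact Iff.rfl) hcon
    obtain ⟨n, hn⟩ := hint ((i₀, s₀, t₀), Sum.inr (m₀, x₀))
    rw [deg_B] at h1
    rw [deg_A] at hn
    exact h21 (dvd_of h1 hn)
  -- the vertex `((i₀, s₀, t₀), inr (m₀, x₀))` sees at most `k` colours
  set v₀ : W k u y p a q := ((i₀, s₀, t₀), Sum.inr (m₀, x₀)) with hv₀
  have hdeg : 0 < deg (gr k u y p a q) v₀ := by
    unfold deg
    rw [Finset.card_pos]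
    obtain ⟨j, hj⟩ : ∃ j : Fin k, i₀ ≠ j := by
      by_cases hi : i₀.1 = 0
      · exact ⟨⟨1, by omega⟩, fun h => by rw [h] at hi; simp at hi⟩
      · exact ⟨⟨0, by omega⟩, fun h => by rw [h] at hi; simp at hi⟩
    refine ⟨((j, s₀, t₀), Sum.inl z₀), ?_⟩
    rw [mem_filter]
    exact ⟨mem_univ _, hj, rfl, rfl⟩
  let g : Fin k → Fin l := fun j => if j = i₀ then c v₀ else c ((j, s₀, t₀), Sum.inl z₀)
  have hg : Function.Surjective g := by
    intro x
    by_cases hx : c v₀ = x
    · exact ⟨i₀, by simp [g, hx]⟩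
    · have h1 := hc.2.2.2.1 v₀ x hx
      have h2 : (0 : ℝ) < e (gr k u y p a q) c v₀ x := by
        rw [h1]
        have : (0 : ℝ) < deg (gr k u y p a q) v₀ := by exact_mod_cast hdeg
        positivity
      have h3 : 0 < e (gr k u y p a q) c v₀ x := by exact_mod_cast h2
      unfold e at h3
      rw [Finset.card_pos] at h3
      obtain ⟨w, hw⟩ := h3
      rw [mem_filter] at hw
      obtain ⟨_, hadj, hcw⟩ := hw
      obtain ⟨⟨j, s, t⟩, z | ⟨m, z⟩⟩ := w
      · obtain ⟨hij, rfl, rfl⟩ := hadj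
        refine ⟨j, ?_⟩
        have : j ≠ i₀ := hij.symm
        simp only [g, this, if_false]
        rw [← hcw]
        exact hB _ _ _ _ _
      · obtain ⟨rfl, rfl, rfl, rfl, _⟩ := hadj
        exact absurd ((hA _ _ _ _ _ _).trans hcw) hx
  have := Fintype.card_le_of_surjective g hg
  simp at this
  omega

end construction

/-! ### The main theorem -/

theorem exists_params (a c : ℕ) (ha : 1 ≤ a) (hc : 1 ≤ c) (h : Nat.Coprime a c) :
    ∃ u y : ℕ, 1 ≤ y ∧ u * a = c * (c + y) + 1 := by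
  obtain ⟨u₀, q₀, h0⟩ : ∃ u₀ q₀ : ℕ, u₀ * a = c * q₀ + 1 := by
    rcases Nat.lt_or_ge 1 c with h1 | h1
    · obtain ⟨m, hm⟩ := Nat.exists_mul_mod_eq_one_of_coprime h h1
      refine ⟨m, a * m / c, ?_⟩
      have := Nat.div_add_mod (a * m) c
      rw [hm.2] at this
      rw [mul_comm m a]
      exact this.symm
    · have : c = 1 := by omega
      subst this
      exact ⟨1, a - 1, by omega⟩
  have h1 : c < q₀ + a * (c + 2) := by nlinarith
  refine ⟨u₀ + c * (c + 2), q₀ + a * (c + 2) - c, by omega, ?_⟩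
  rw [Nat.add_sub_cancel' h1.le]
  calc (u₀ + c * (c + 2)) * a = u₀ * a + c * (a * (c + 2)) := by ring
    _ = c * q₀ + 1 + c * (a * (c + 2)) := by rw [h0]
    _ = c * (q₀ + a * (c + 2)) + 1 := by ring

theorem isFAT_col (k a c u y : ℕ) (hk : 2 ≤ k) (ha : 1 ≤ a) (hc : 1 ≤ c) (hy : 1 ≤ y)
    (hu : u * a = c * (c + y) + 1) :
    IsFAT (gr k u y (a * (c + 1)) a (c ^ 2 + c + 1)) k col ((a : ℝ) / ((k - 1) * a + c)) := by
  have hu0 : 0 < u := by
    rcases Nat.eq_zero_or_pos u with h | h
    · subst h; omega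
    · exact h
  have hk1 : (1 : ℝ) ≤ (k : ℝ) - 1 := by
    have : (2 : ℝ) ≤ k := by exact_mod_cast hk
    linarith
  have ha1 : (1 : ℝ) ≤ a := by exact_mod_cast ha
  have hc1 : (1 : ℝ) ≤ c := by exact_mod_cast hc
  have hb : (0 : ℝ) < (k - 1) * a + c := by positivity
  have hkc : ((k - 1 : ℕ) : ℝ) = (k : ℝ) - 1 := by
    rw [Nat.cast_sub (by omega)]; simp
  have huR : (u : ℝ) * a = c * (c + y) + 1 := by exact_mod_cast hu
  have hup : u * (a * (c + 1)) - 1 = c * ((c + 1) * (c + y) + 1) := by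
    have : u * (a * (c + 1)) = c * ((c + 1) * (c + y) + 1) + 1 := by
      calc u * (a * (c + 1)) = (u * a) * (c + 1) := by ring
        _ = (c * (c + y) + 1) * (c + 1) := by rw [hu]
        _ = _ := by ring
    omega
  have hq : c ^ 2 + c + 1 - 1 = c * (c + 1) := by
    have : c ^ 2 + c + 1 = c * (c + 1) + 1 := by ring
    omega
  refine ⟨?_, by positivity, ?_, ?_, ?_⟩
  · intro i
    exact ⟨((i, ⟨0, hu0⟩, ⟨0, hy⟩), Sum.inl ⟨0, by positivity⟩), rfl⟩
  · rw [div_le_one hb]
    nlinarith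
  · rintro ⟨⟨i, s, t⟩, z | ⟨m, z⟩⟩ j hij
    · rw [e_B_diff i s t z j hij, deg_B, hup]
      push_cast
      rw [hkc]
      field_simp
      ring
    · rw [e_A_diff i s t m z j hij, deg_A, hq]
      push_cast
      rw [hkc]
      field_simp
  · rintro ⟨⟨i, s, t⟩, z | ⟨m, z⟩⟩ j rfl
    · show (e _ col ((i, s, t), Sum.inl z) i : ℝ) = _
      rw [e_B_same i s t z, deg_B, hup]
      push_cast
      rw [hkc]
      field_simp
      ring
    · show (e _ col ((i, s, t), Sum.inr (m, z)) i : ℝ) = _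
      rw [e_A_same i s t m z, deg_A, hq]
      push_cast
      rw [hkc]
      field_simp
      ring

theorem isFAT_complete (k : ℕ) (hk : 2 ≤ k) :
    IsFAT (⊤ : SimpleGraph (Fin k)) k id (1 / ((k : ℝ) - 1)) := by
  classical
  have hk1 : (1 : ℝ) ≤ (k : ℝ) - 1 := by
    have : (2 : ℝ) ≤ k := by exact_mod_cast hk
    linarith
  have hdeg : ∀ v : Fin k, deg (⊤ : SimpleGraph (Fin k)) v = k - 1 := by
    intro v
    unfold deg
    trans (univ.erase v).card
    · congr 1
      ext w
      simp [eq_comm]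
    · rw [Finset.card_erase_of_mem (mem_univ _)]
      simp
  have hkc : ((k - 1 : ℕ) : ℝ) = (k : ℝ) - 1 := by
    rw [Nat.cast_sub (by omega)]; simp
  refine ⟨Function.surjective_id, by positivity, ?_, ?_, ?_⟩
  · rw [div_le_one (by positivity)]; exact hk1
  · intro v i hvi
    rw [hdeg, hkc]
    have : e (⊤ : SimpleGraph (Fin k)) id v i = 1 := by
      unfold e
      rw [Finset.card_eq_one]
      refine ⟨i, ?_⟩
      ext w
      simp only [SimpleGraph.top_adj, id, mem_filter, mem_univ, true_and, mem_singleton]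
      constructor
      · exact fun h => h.2
      · rintro rfl
        exact ⟨hvi, rfl⟩
    rw [this]
    field_simp
    simp
  · intro v i hvi
    have : e (⊤ : SimpleGraph (Fin k)) id v i = 0 := by
      unfold e
      rw [Finset.card_eq_zero]
      ext w
      simp only [SimpleGraph.top_adj, id, mem_filter, mem_univ, true_and, Finset.notMem_empty,
        iff_false, not_and]
      rintro h rfl
      exact h hvi
    rw [this]
    field_simp
    simp

theorem degrees (k a c u y : ℕ) (hu : u * a = c * (c + y) + 1) :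
    (k - 1) * (a * (c + 1)) + (c ^ 2 + c + 1 - 1) = (c + 1) * ((k - 1) * a + c) ∧
    (k - 1) * (y * (a * (c + 1)) + a * (c ^ 2 + c + 1)) + (u * (a * (c + 1)) - 1) =
      ((c + 1) * (c + y) + 1) * ((k - 1) * a + c) := by
  have hup : u * (a * (c + 1)) - 1 = c * ((c + 1) * (c + y) + 1) := by
    have : u * (a * (c + 1)) = c * ((c + 1) * (c + y) + 1) + 1 := by
      calc u * (a * (c + 1)) = (u * a) * (c + 1) := by ring
        _ = (c * (c + y) + 1) * (c + 1) := by rw [hu]
        _ = _ := by ring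
    omega
  have hq : c ^ 2 + c + 1 - 1 = c * (c + 1) := by
    have : c ^ 2 + c + 1 = c * (c + 1) + 1 := by ring
    omega
  rw [hup, hq]
  constructor <;> ring

/-- **Main theorem** (Q1). For every `k ≥ 2` and every rational `α` with `0 < α ≤ 1 / (k - 1)` there is
a connected graph whose FAT chromatic number is `k` and which has a FAT `k`-coloring with parameter
`α`. -/
theorem result (k : ℕ) (hk : 2 ≤ k) (α : ℚ) (h0 : 0 < α) (h1 : α ≤ 1 / ((k : ℚ) - 1)) :
    ∃ (V : Type) (_ : Fintype V) (G : SimpleGraph V), G.Connected ∧ 2 ≤ Fintype.card V ∧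
      IsGreatest {l | HasFAT G l} k ∧ chiFAT G = k ∧ ∃ c : V → Fin k, IsFAT G k c α := by
  have hkQ : (1 : ℚ) ≤ (k : ℚ) - 1 := by
    have : (2 : ℚ) ≤ k := by exact_mod_cast hk
    linarith
  rcases h1.lt_or_eq with h1 | h1
  · -- `α = a / ((k - 1) a + c)`
    obtain ⟨a, c, ha, hc, hac, hα⟩ : ∃ a c : ℕ, 1 ≤ a ∧ 1 ≤ c ∧ Nat.Coprime a c ∧
        α = (a : ℚ) / (((k : ℚ) - 1) * a + c) := by
      have hden : (0 : ℚ) < α.den := by exact_mod_cast α.den_pos
      obtain ⟨a, ha⟩ : ∃ a : ℕ, α.num = a := Int.eq_ofNat_of_zero_le (Rat.num_nonneg.2 h0.le)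
      have hα' : α = (a : ℚ) / α.den := by
        have := Rat.num_div_den α
        rw [ha, Int.cast_natCast] at this
        exact this.symm
      have hapos : 1 ≤ a := by
        have := Rat.num_pos.2 h0
        omega
      have hlt : (k - 1) * a < α.den := by
        rw [lt_div_iff₀ (by linarith)] at h1
        rw [hα'] at h1
        have h2 : (a : ℚ) * ((k : ℚ) - 1) < α.den := by
          rw [div_mul_eq_mul_div, div_lt_one hden] at h1
          exact h1
        have h3 : (((k - 1) * a : ℕ) : ℚ) < ((α.den : ℕ) : ℚ) := by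
          rw [Nat.cast_mul, Nat.cast_sub (by omega)]
          push_cast
          linarith
        exact_mod_cast h3
      refine ⟨a, α.den - (k - 1) * a, hapos, by omega, ?_, ?_⟩
      · have hcop : Nat.Coprime a α.den := by
          have := α.reduced
          rw [ha] at this
          simpa using this
        have h4 : α.den = (α.den - (k - 1) * a) + a * (k - 1) := by
          have : a * (k - 1) = (k - 1) * a := by ring
          omega
        rw [h4] at hcop
        simpa using hcop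
      · have h4 : ((α.den : ℕ) : ℚ) = ((k : ℚ) - 1) * a + ((α.den - (k - 1) * a : ℕ) : ℚ) := by
          rw [Nat.cast_sub hlt.le, Nat.cast_mul, Nat.cast_sub (by omega)]
          push_cast
          ring
        rw [← h4]
        exact hα'
    obtain ⟨u, y, hy, hu⟩ := exists_params a c ha hc hac
    have hu0 : 0 < u := by
      rcases Nat.eq_zero_or_pos u with h | h
      · subst h; omega
      · exact h
    have hp0 : 0 < a * (c + 1) := by positivity
    obtain ⟨e1, e2⟩ := degrees k a c u y hu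
    have hb : 0 < (k - 1) * a + c := by omega
    have hfat := isFAT_col k a c u y hk ha hc hy hu
    have hup := upper (k := k) (u := u) (y := y) (p := a * (c + 1)) (a := a) (q := c ^ 2 + c + 1)
      hk ⟨0, by omega⟩ ⟨0, hu0⟩ ⟨0, hy⟩ ⟨0, hp0⟩ ⟨0, ha⟩ ⟨0, by omega⟩
      (by
        rw [e1, e2]
        intro h
        have h2 := Nat.dvd_of_mul_dvd_mul_right hb h
        rw [Nat.dvd_add_right (Dvd.intro _ rfl)] at h2
        have := Nat.le_of_dvd one_pos h2
        omega)
      (by
        rw [e1, e2]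
        intro h
        have h2 := Nat.le_of_dvd (by positivity) (Nat.dvd_of_mul_dvd_mul_right hb h)
        nlinarith)
    refine ⟨W k u y (a * (c + 1)) a (c ^ 2 + c + 1), inferInstance,
      gr k u y (a * (c + 1)) a (c ^ 2 + c + 1),
      connected hk ⟨0, by omega⟩ ⟨0, hu0⟩ ⟨0, hy⟩ ⟨0, hp0⟩, ?_, ⟨⟨_, _, hfat⟩, fun l hl => hup l hl⟩,
      chi_eq ⟨_, _, hfat⟩ hup, col, ?_⟩
    · exact hk.trans (hasFAT_le_card ⟨_, _, hfat⟩)
    · rw [hα]
      push_cast
      exact hfat
  · have hfat := isFAT_complete k hk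
    have hup : ∀ l, HasFAT (⊤ : SimpleGraph (Fin k)) l → l ≤ k := fun l hl => by
      simpa using hasFAT_le_card hl
    have : Nonempty (Fin k) := ⟨⟨0, by omega⟩⟩
    refine ⟨Fin k, inferInstance, ⊤, SimpleGraph.connected_top, by simpa using hk,
      ⟨⟨_, _, hfat⟩, fun l hl => hup l hl⟩, chi_eq ⟨_, _, hfat⟩ hup, id, ?_⟩
    rw [h1]
    push_cast
    exact hfat

end Pool.Agent.Results.MP_2d49c6_co.AllParameters
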